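import Mathlib

/-!
MP_74088a_nt, exponent one (helper15, note 3748), section 1: truncated Petridis lemma.
-/

set_option autoImplicit false

namespace Pool.Agent.Helper91_EDX.PET

open Module

section lin

variable {k P Q : Type*} [Field k] [AddCommGroup P] [Module k P] [AddCommGroup Q] [Module k Q]

theorem finrank_map_add (f : P →ₗ[k] Q) (A : Submodule k P) [FiniteDimensional k A] :
    finrank k (A.map f) + finrank k (A ⊓ LinearMap.ker f : Submodule k P) = finrank k A := by
  have h1 := LinearMap.finrank_range_add_finrank_ker (f.domRestrict A)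
  have h2 : LinearMap.range (f.domRestrict A) = A.map f := by
    rw [LinearMap.range_domRestrict]
  have h3 : finrank k (LinearMap.ker (f.domRestrict A))
      = finrank k (A ⊓ LinearMap.ker f : Submodule k P) := by
    have h4 : (LinearMap.ker (f.domRestrict A)).map A.subtype = A ⊓ LinearMap.ker f := by
      ext x
      simp only [Submodule.mem_map, LinearMap.mem_ker, Submodule.mem_inf, Submodule.subtype_apply,
        LinearMap.domRestrict_apply]
      constructor
      · rintro ⟨y, hy, rfl⟩
        exact ⟨y.2, hy⟩
      · rintro ⟨hx, hfx⟩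
        exact ⟨⟨x, hx⟩, hfx, rfl⟩
    rw [← h4]
    exact (LinearEquiv.finrank_eq (Submodule.equivMapOfInjective A.subtype
      (Submodule.injective_subtype A) _))
  rw [h2, h3] at h1
  exact h1

theorem exact (f : P →ₗ[k] Q) (A : Submodule k P) [FiniteDimensional k A] (Y : Submodule k Q)
    [FiniteDimensional k Y] :
    finrank k (Y ⊔ A.map f : Submodule k Q) + finrank k (A ⊓ Y.comap f : Submodule k P)
      = finrank k Y + finrank k A := by
  have : FiniteDimensional k (A.map f) := inferInstance
  have h1 := Submodule.finrank_sup_add_finrank_inf_eq Y (A.map f)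
  have h2 := finrank_map_add f A
  have : FiniteDimensional k (A ⊓ Y.comap f : Submodule k P) :=
    Submodule.finiteDimensional_inf_left _ _
  have h3 := finrank_map_add f (A ⊓ Y.comap f)
  have h4 : (A ⊓ Y.comap f).map f = Y ⊓ A.map f := by
    ext x
    simp only [Submodule.mem_map, Submodule.mem_inf, Submodule.mem_comap]
    constructor
    · rintro ⟨y, ⟨hy1, hy2⟩, rfl⟩
      exact ⟨hy2, y, hy1, rfl⟩
    · rintro ⟨hx, y, hy, rfl⟩
      exact ⟨y, ⟨hy, hx⟩, rfl⟩
  have h5 : (A ⊓ Y.comap f) ⊓ LinearMap.ker f = A ⊓ LinearMap.ker f := by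
    ext x
    simp only [Submodule.mem_inf, Submodule.mem_comap, LinearMap.mem_ker]
    constructor
    · rintro ⟨⟨h1, h2⟩, h3⟩
      exact ⟨h1, h3⟩
    · rintro ⟨h1, h3⟩
      refine ⟨⟨h1, ?_⟩, h3⟩
      rw [h3]
      exact Y.zero_mem
  rw [h4, h5] at h3
  omega

end lin

section pet

variable {k R V : Type*} [Field k] [CommRing R] [Algebra k R] [AddCommGroup V] [Module k V]
  [Module R V] [IsScalarTower k R V]

/-- The span of the products `c u`, `c ∈ C`, `u ∈ U`. -/
def act (k : Type*) {R V : Type*} [Field k] [CommRing R] [AddCommGroup V] [Module k V]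
    [Module R V] (C : Set R) (U : Submodule k V) : Submodule k V :=
  Submodule.span k {x | ∃ c ∈ C, ∃ u ∈ U, x = c • u}

/-- multiplication by an element of `R` as a `k`-linear map -/
def ml (k : Type*) {R : Type*} (V : Type*) [Field k] [CommRing R] [Algebra k R] [AddCommGroup V]
    [Module k V] [Module R V] [IsScalarTower k R V] (c : R) : V →ₗ[k] V where
  toFun := fun v => c • v
  map_add' := fun x y => smul_add c x y
  map_smul' := fun a x => by
    simp only [RingHom.id_apply]
    rw [← algebraMap_smul R a x, ← algebraMap_smul R a (c • x), smul_smul, smul_smul, mul_comm]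

theorem ml_apply (c : R) (v : V) : ml k V c v = c • v := rfl

theorem mem_act {C : Set R} {U : Submodule k V} {c : R} {u : V} (hc : c ∈ C) (hu : u ∈ U) :
    c • u ∈ act k C U :=
  Submodule.subset_span ⟨c, hc, u, hu, rfl⟩

theorem act_le {C : Set R} {U X : Submodule k V} (h : ∀ c ∈ C, ∀ u ∈ U, c • u ∈ X) :
    act k C U ≤ X := by
  refine Submodule.span_le.2 ?_
  rintro x ⟨c, hc, u, hu, rfl⟩
  exact h c hc u hu

theorem act_insert (c : R) (C : Set R) (U : Submodule k V) :
    act k (insert c C) U = act k C U ⊔ U.map (ml k V c) := by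
  apply le_antisymm
  · refine act_le ?_
    intro c' hc' u hu
    rcases hc' with rfl | hc'
    · exact Submodule.mem_sup_right (Submodule.mem_map.2 ⟨u, hu, rfl⟩)
    · exact Submodule.mem_sup_left (mem_act hc' hu)
  · refine sup_le (act_le fun c' hc' u hu => mem_act (Set.mem_insert_of_mem _ hc') hu) ?_
    rintro x hx
    obtain ⟨u, hu, rfl⟩ := Submodule.mem_map.1 hx
    exact mem_act (Set.mem_insert _ _) hu

theorem act_empty (U : Submodule k V) : act k (∅ : Set R) U = ⊥ := by
  refine le_bot_iff.1 (act_le ?_)
  intro c hc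
  exact absurd hc (Set.notMem_empty c)

theorem act_act (S C : Set R) (U : Submodule k V) :
    act k S (act k C U) = act k (Set.image2 (fun s c => s * c) S C) U := by
  apply le_antisymm
  · refine act_le ?_
    intro s hs x hx
    have h1 : act k C U ≤ (act k (Set.image2 (fun s c => s * c) S C) U).comap (ml k V s) := by
      refine act_le ?_
      intro c hc u hu
      rw [Submodule.mem_comap, ml_apply, smul_smul]
      exact mem_act (Set.mem_image2_of_mem hs hc) hu
    exact h1 hx
  · refine act_le ?_
    rintro _ ⟨s, hs, c, hc, rfl⟩ u hu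
    show (s * c) • u ∈ _
    rw [mul_smul]
    exact mem_act hs (mem_act hc hu)

theorem act_fin (C : Set R) (hC : C.Finite) (U : Submodule k V) [FiniteDimensional k U] :
    FiniteDimensional k (act k C U) := by
  induction C, hC using Set.Finite.induction_on with
  | empty =>
    rw [act_empty]
    infer_instance
  | insert hc hC ih =>
    rw [act_insert]
    have := ih
    exact Submodule.finiteDimensional_sup _ _

/-- products of `j` elements of `S` -/
def pw (S : Set R) : ℕ → Set R
  | 0 => {1}
  | j + 1 => Set.image2 (fun s c => s * c) S (pw S j)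

theorem pw_finite (S : Set R) (hS : S.Finite) (j : ℕ) : (pw S j).Finite := by
  induction j with
  | zero => exact Set.finite_singleton 1
  | succ j ih => exact Set.Finite.image2 _ hS ih

theorem act_pw_zero (S : Set R) (U : Submodule k V) : act k (pw S 0) U = U := by
  apply le_antisymm
  · refine act_le ?_
    rintro c hc u hu
    rw [Set.mem_singleton_iff.1 hc, one_smul]
    exact hu
  · intro u hu
    have := mem_act (k := k) (Set.mem_singleton (1 : R)) hu
    rw [one_smul] at this
    exact this

theorem act_pw_succ (S : Set R) (j : ℕ) (U : Submodule k V) :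
    act k (pw S (j + 1)) U = act k S (act k (pw S j) U) := (act_act S (pw S j) U).symm

theorem act_iter (S : Set R) (j : ℕ) (U : Submodule k V) :
    act k (pw S j) U = (act k S)^[j] U := by
  induction j with
  | zero => exact act_pw_zero S U
  | succ j ih => rw [act_pw_succ, ih, Function.iterate_succ_apply']

theorem pw_shift (S : Set R) (Z : ℕ → Submodule k V) (a : ℕ)
    (hZ : ∀ r, ∀ s ∈ S, ∀ z ∈ Z (r + a), s • z ∈ Z r) (j : ℕ) :
    ∀ r, ∀ c ∈ pw S j, ∀ z ∈ Z (r + j * a), c • z ∈ Z r := by
  induction j with
  | zero =>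
    intro r c hc z hz
    rw [Set.mem_singleton_iff.1 hc, one_smul]
    simpa using hz
  | succ j ih =>
    rintro r _ ⟨s, hs, c, hc, rfl⟩ z hz
    rw [mul_smul]
    refine hZ r s hs _ (ih (r + a) c hc z ?_)
    have : r + a + j * a = r + (j + 1) * a := by ring
    rw [this]
    exact hz

/-- one step: adding the elements of `C` one by one -/
theorem step (Z : ℕ → Submodule k V) (S : Set R) (hSf : S.Finite) (a r K : ℕ)
    (hZ : ∀ r, ∀ s ∈ S, ∀ z ∈ Z (r + a), s • z ∈ Z r) (U : Submodule k V)
    [FiniteDimensional k U]
    (hmin : ∀ U1 ≤ U, finrank k ((act k S U).map (Z (r - a)).mkQ) + K * finrank k U1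
      ≤ finrank k ((act k S U1).map (Z (r - a)).mkQ) + K * finrank k U)
    (j : ℕ) (hj : (j + 1) * a ≤ r) (C : Set R) (hC : C.Finite) (hCS : C ⊆ pw S j) :
    finrank k ((act k S (act k C U)).map (Z (r - (j + 1) * a)).mkQ)
      ≤ K * finrank k ((act k C U).map (Z (r - j * a)).mkQ) := by
  induction C, hC using Set.Finite.induction_on with
  | empty =>
    rw [act_empty]
    have h0 : act k S (⊥ : Submodule k V) = ⊥ := by
      refine le_bot_iff.1 (act_le ?_)
      intro c _ u hu
      rw [(Submodule.mem_bot k).1 hu, smul_zero]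
      exact Submodule.zero_mem _
    rw [h0, Submodule.map_bot]
    simp
  | @insert c C' hc hC' ih =>
    have hih := ih (fun x hx => hCS (Set.mem_insert_of_mem _ hx))
    have hcj : c ∈ pw S j := hCS (Set.mem_insert _ _)
    set Y : Submodule k V := act k C' U with hY
    have hYf : FiniteDimensional k Y := act_fin C' hC' U
    have hSYf : FiniteDimensional k (act k S Y) := act_fin S hSf Y
    have hSUf : FiniteDimensional k (act k S U) := act_fin S hSf U
    set Z1 : Submodule k V := Z (r - j * a) with hZ1
    set Z2 : Submodule k V := Z (r - (j + 1) * a) with hZ2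
    set Z0 : Submodule k V := Z (r - a) with hZ0
    -- first map : u ↦ c u modulo Z1
    set f1 : V →ₗ[k] V ⧸ Z1 := Z1.mkQ.comp (ml k V c) with hf1
    set U1 : Submodule k V := U ⊓ (Y.map Z1.mkQ).comap f1 with hU1
    have e1 := exact f1 U (Y.map Z1.mkQ)
    have e2 : (act k (insert c C') U).map Z1.mkQ = Y.map Z1.mkQ ⊔ U.map f1 := by
      rw [act_insert, Submodule.map_sup, hf1, Submodule.map_comp]
    have hm := hmin U1 inf_le_left
    -- second map : the induced map of quotients
    have hr1 : r - (j + 1) * a + j * a = r - a := by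
      have : (j + 1) * a = j * a + a := by ring
      omega
    have hker : Z0 ≤ Z2.comap (ml k V c) := by
      intro z hz
      show c • z ∈ Z2
      refine pw_shift S Z a hZ j _ c hcj z ?_
      rw [hr1]
      exact hz
    set f2 : V ⧸ Z0 →ₗ[k] V ⧸ Z2 := Submodule.mapQ Z0 Z2 (ml k V c) hker with hf2
    have e3 := exact f2 ((act k S U).map Z0.mkQ) ((act k S Y).map Z2.mkQ)
    have e4 : (act k S (act k (insert c C') U)).map Z2.mkQ
        = (act k S Y).map Z2.mkQ ⊔ ((act k S U).map Z0.mkQ).map f2 := by
      have h5 : act k S (act k (insert c C') U) = act k S Y ⊔ (act k S U).map (ml k V c) := by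
        rw [act_insert]
        apply le_antisymm
        · refine act_le ?_
          intro s hs x hx
          obtain ⟨y, hy, w, hw, rfl⟩ := Submodule.mem_sup.1 hx
          show s • (y + w) ∈ _
          rw [smul_add]
          refine Submodule.add_mem_sup (mem_act hs hy) ?_
          obtain ⟨u, hu, rfl⟩ := Submodule.mem_map.1 hw
          refine Submodule.mem_map.2 ⟨s • u, mem_act hs hu, ?_⟩
          show c • (s • u) = s • (c • u)
          rw [smul_smul, smul_smul, mul_comm]
        · refine sup_le ?_ ?_
          · refine act_le ?_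
            intro s hs y hy
            exact mem_act hs (Submodule.mem_sup_left hy)
          · rintro x hx
            obtain ⟨v, hv, rfl⟩ := Submodule.mem_map.1 hx
            have h6 : act k S U ≤ (act k S (act k C' U ⊔ U.map (ml k V c))).comap (ml k V c) := by
              refine act_le ?_
              intro s hs u hu
              rw [Submodule.mem_comap, ml_apply, smul_smul, mul_comm, mul_smul]
              exact mem_act hs (Submodule.mem_sup_right (Submodule.mem_map.2 ⟨u, hu, rfl⟩))
            exact h6 hv
      rw [h5, Submodule.map_sup]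
      congr 1
      rw [← Submodule.map_comp, ← Submodule.map_comp]
      congr 1
    have h7 : (act k S U1).map Z0.mkQ
        ≤ (act k S U).map Z0.mkQ ⊓ ((act k S Y).map Z2.mkQ).comap f2 := by
      refine le_inf ?_ ?_
      · refine Submodule.map_mono (act_le ?_)
        intro s hs u hu
        exact mem_act hs (inf_le_left (b := (Y.map Z1.mkQ).comap f1) hu)
      · rw [Submodule.map_le_iff_le_comap]
        refine act_le ?_
        intro s hs u hu
        show f2 (Z0.mkQ (s • u)) ∈ (act k S Y).map Z2.mkQ
        have h8 : f1 u ∈ Y.map Z1.mkQ := hu.2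
        obtain ⟨y, hy, hyu⟩ := Submodule.mem_map.1 h8
        have h9 : c • u - y ∈ Z1 := by
          have h10 : Z1.mkQ y = Z1.mkQ (c • u) := hyu
          rw [← Submodule.Quotient.mk_eq_zero Z1]
          have h11 : Submodule.Quotient.mk (p := Z1) (c • u - y)
              = Z1.mkQ (c • u) - Z1.mkQ y := by
            rw [← map_sub]
            rfl
          rw [h11, h10, sub_self]
        have h12 : s • (c • u - y) ∈ Z2 := by
          refine hZ _ s hs _ ?_
          have : r - (j + 1) * a + a = r - j * a := by
            have : (j + 1) * a = j * a + a := by ring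
            omega
          rw [this]
          exact h9
        refine Submodule.mem_map.2 ⟨s • y, mem_act hs hy, ?_⟩
        have h13 : f2 (Z0.mkQ (s • u)) = Z2.mkQ (c • (s • u)) := rfl
        rw [h13]
        have h14 : c • (s • u) = s • (c • u - y) + s • y := by
          rw [← smul_add, sub_add_cancel, smul_smul, smul_smul, mul_comm]
        rw [h14, map_add]
        have h15 : Z2.mkQ (s • (c • u - y)) = 0 := (Submodule.Quotient.mk_eq_zero Z2).2 h12
        rw [h15, zero_add]
    have : FiniteDimensional k (((act k S U).map Z0.mkQ ⊓ ((act k S Y).map Z2.mkQ).comap f2 :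
        Submodule k (V ⧸ Z0))) := Submodule.finiteDimensional_inf_left _ _
    have h8 := Submodule.finrank_mono h7
    rw [e4, e2]
    have h16 : K * finrank k (Y.map Z1.mkQ ⊔ U.map f1 : Submodule k (V ⧸ Z1))
        + K * finrank k U1 = K * finrank k (Y.map Z1.mkQ) + K * finrank k U := by
      rw [← mul_add, ← mul_add, e1]
    omega

/-- **PET** (truncated Petridis). -/
theorem pet (Z : ℕ → Submodule k V) (S : Set R) (hSf : S.Finite) (a r K N : ℕ)
    (hZ : ∀ r, ∀ s ∈ S, ∀ z ∈ Z (r + a), s • z ∈ Z r) (U0 : Submodule k V)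
    [FiniteDimensional k U0]
    (h1 : finrank k ((act k S U0).map (Z (r - a)).mkQ) ≤ N)
    (h2 : 2 * N ≤ K * finrank k U0) :
    ∃ U ≤ U0, N ≤ K * finrank k U ∧ ∀ Q : ℕ, Q * a ≤ r →
      finrank k (((act k S)^[Q] U).map (Z (r - Q * a)).mkQ) ≤ K ^ Q * finrank k U := by
  classical
  -- minimise
  let φ : Submodule k V → ℕ := fun U =>
    finrank k ((act k S U).map (Z (r - a)).mkQ) + K * (finrank k U0 - finrank k U)
  obtain ⟨U, hU, hmin⟩ : ∃ U : Submodule k V, U ≤ U0 ∧ ∀ W ≤ U0, φ U ≤ φ W := by
    have hne : (Set.range (fun U : {U : Submodule k V // U ≤ U0} => φ U.1)).Nonempty :=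
      ⟨_, ⟨U0, le_rfl⟩, rfl⟩
    obtain ⟨⟨U, hU⟩, hU2⟩ := Nat.sInf_mem hne
    refine ⟨U, hU, fun W hW => ?_⟩
    have : φ U = sInf (Set.range (fun U : {U : Submodule k V // U ≤ U0} => φ U.1)) := hU2
    rw [this]
    exact Nat.sInf_le ⟨⟨W, hW⟩, rfl⟩
  have hUf : FiniteDimensional k U := Submodule.finiteDimensional_of_le hU
  have hUU0 : finrank k U ≤ finrank k U0 := Submodule.finrank_mono hU
  refine ⟨U, hU, ?_, ?_⟩
  · have h3 := hmin U0 le_rfl
    simp only [φ, Nat.sub_self, Nat.mul_zero, Nat.add_zero] at h3
    have h4 : K * finrank k U0 = K * (finrank k U0 - finrank k U) + K * finrank k U := by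
      rw [← mul_add, Nat.sub_add_cancel hUU0]
    omega
  · have hstep : ∀ j, (j + 1) * a ≤ r →
        finrank k ((act k S (act k (pw S j) U)).map (Z (r - (j + 1) * a)).mkQ)
          ≤ K * finrank k ((act k (pw S j) U).map (Z (r - j * a)).mkQ) := by
      intro j hj
      refine step Z S hSf a r K hZ U ?_ j hj (pw S j) (pw_finite S hSf j) (le_refl _)
      intro U1 hU1
      have h3 := hmin U1 (hU1.trans hU)
      have h5 : finrank k U1 ≤ finrank k U := Submodule.finrank_mono hU1
      simp only [φ] at h3
      have h4 : K * finrank k U0 = K * (finrank k U0 - finrank k U) + K * finrank k U := by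
        rw [← mul_add, Nat.sub_add_cancel hUU0]
      have h6 : K * finrank k U0 = K * (finrank k U0 - finrank k U1) + K * finrank k U1 := by
        rw [← mul_add, Nat.sub_add_cancel (h5.trans hUU0)]
      omega
    intro Q
    induction Q with
    | zero =>
      intro _
      simp only [Function.iterate_zero, id_eq, pow_zero, one_mul]
      exact Submodule.finrank_map_le _ _
    | succ Q ih =>
      intro hQ
      have hQ' : Q * a ≤ r := by
        have : (Q + 1) * a = Q * a + a := by ring
        omega
      have h3 := ih hQ'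
      have h4 := hstep Q hQ
      rw [act_iter] at h4
      rw [Function.iterate_succ_apply']
      calc finrank k ((act k S ((act k S)^[Q] U)).map (Z (r - (Q + 1) * a)).mkQ)
          ≤ K * finrank k (((act k S)^[Q] U).map (Z (r - Q * a)).mkQ) := h4
        _ ≤ K * (K ^ Q * finrank k U) := Nat.mul_le_mul_left _ h3
        _ = K ^ (Q + 1) * finrank k U := by ring

end pet

end Pool.Agent.Helper91_EDX.PET
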