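import Mathlib

/-!
MP_74088a_nt, exponent one (helper15, note 3748), section 6: the area estimate for inverse branches.
-/

set_option autoImplicit false

namespace Pool.Agent.Helper91_EDX.AREA

open MeasureTheory Set Metric
open scoped ENNReal

/-- polar coordinates for nonnegative functions -/
theorem polar (F : ℂ → ℝ≥0∞) (hF : Measurable F) :
    ∫⁻ w, F w = ∫⁻ s in Ioi (0 : ℝ), ∫⁻ θ in Ioo (-Real.pi) Real.pi,
      ENNReal.ofReal s * F ((s : ℂ) * Complex.exp ((θ : ℂ) * Complex.I)) := by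
  rw [← Complex.lintegral_comp_polarCoord_symm]
  have h1 : polarCoord.target = Ioi (0 : ℝ) ×ˢ Ioo (-Real.pi) Real.pi := rfl
  rw [h1, Measure.volume_eq_prod, ← Measure.prod_restrict, lintegral_prod]
  · refine lintegral_congr fun s => lintegral_congr fun θ => ?_
    have h2 : Complex.polarCoord.symm (s, θ) = (s : ℂ) * Complex.exp ((θ : ℂ) * Complex.I) := by
      rw [Complex.polarCoord_symm_apply, Complex.exp_mul_I]
      simp
    rw [h2]
    rfl
  · refine Measurable.aemeasurable ?_
    have h3 : (fun p : ℝ × ℝ => ENNReal.ofReal p.1 • F (Complex.polarCoord.symm p))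
        = fun p : ℝ × ℝ => ENNReal.ofReal p.1 * F ((p.1 : ℂ) * Complex.exp ((p.2 : ℂ) * Complex.I)) := by
      funext p
      rw [Complex.polarCoord_symm_apply, Complex.exp_mul_I]
      simp
    have h4 : Measurable (fun p : ℝ × ℝ => (p.1 : ℂ) * Complex.exp ((p.2 : ℂ) * Complex.I)) := by
      fun_prop
    have h5 : Measurable (fun p : ℝ × ℝ => ENNReal.ofReal p.1) :=
      ENNReal.measurable_ofReal.comp measurable_fst
    have h6 := h5.mul (hF.comp h4)
    show Measurable (fun p : ℝ × ℝ => ENNReal.ofReal p.1 • F (Complex.polarCoord.symm p))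
    rw [h3]
    exact h6

/-- mean value inequality on a circle -/
theorem circle (g : ℂ → ℂ) (c : ℂ) (s : ℝ) (hs0 : 0 < s) (hs1 : s < 1)
    (hg : DifferentiableOn ℂ g (ball c 1)) :
    ENNReal.ofReal (2 * Real.pi * ‖g c‖ ^ 2) ≤ ∫⁻ θ in Ioo (-Real.pi) Real.pi,
      ENNReal.ofReal (‖g (c + (s : ℂ) * Complex.exp ((θ : ℂ) * Complex.I))‖ ^ 2) := by
  have hsub : closedBall c s ⊆ ball c 1 := closedBall_subset_ball hs1
  have hd : DiffContOnCl ℂ (fun w => g w ^ 2) (ball c |s|) := by
    have h1 : DifferentiableOn ℂ (fun w => g w ^ 2) (closedBall c s) := (hg.mono hsub).pow 2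
    rw [abs_of_pos hs0]
    have h2 : closure (ball c s) = closedBall c s := closure_ball c hs0.ne'
    exact DifferentiableOn.diffContOnCl (by rw [h2]; exact h1)
  have h3 := hd.circleAverage
  have hmem : ∀ θ : ℝ, circleMap c s θ ∈ ball c 1 := fun θ =>
    hsub (circleMap_mem_closedBall c hs0.le θ)
  have hcont : Continuous (fun θ : ℝ => g (circleMap c s θ)) :=
    hg.continuousOn.comp_continuous (continuous_circleMap c s) hmem
  have h4 : 2 * Real.pi * ‖g c‖ ^ 2 ≤ ∫ θ in (0 : ℝ)..(2 * Real.pi), ‖g (circleMap c s θ)‖ ^ 2 := by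
    have h5 : ‖g c‖ ^ 2 = ‖(2 * Real.pi)⁻¹ • ∫ θ in (0 : ℝ)..(2 * Real.pi),
        g (circleMap c s θ) ^ 2‖ := by
      rw [← norm_pow, ← h3]
      rfl
    have h6 : ‖∫ θ in (0 : ℝ)..(2 * Real.pi), g (circleMap c s θ) ^ 2‖
        ≤ ∫ θ in (0 : ℝ)..(2 * Real.pi), ‖g (circleMap c s θ)‖ ^ 2 := by
      refine (intervalIntegral.norm_integral_le_integral_norm (by positivity)).trans_eq ?_
      refine intervalIntegral.integral_congr fun θ _ => ?_
      exact norm_pow _ _
    have hpi : (0 : ℝ) < 2 * Real.pi := by positivity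
    rw [h5, norm_smul, Real.norm_of_nonneg (by positivity), ← mul_assoc, mul_inv_cancel₀ hpi.ne',
      one_mul]
    exact h6
  have h7 : ∫ θ in (0 : ℝ)..(2 * Real.pi), ‖g (circleMap c s θ)‖ ^ 2
      = ∫ θ in (-Real.pi)..Real.pi, ‖g (circleMap c s θ)‖ ^ 2 := by
    have hper : Function.Periodic (fun θ : ℝ => ‖g (circleMap c s θ)‖ ^ 2) (2 * Real.pi) := by
      intro θ
      show ‖g (circleMap c s (θ + 2 * Real.pi))‖ ^ 2 = _
      rw [periodic_circleMap c s θ]
    have h8 := hper.intervalIntegral_add_eq 0 (-Real.pi)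
    rw [zero_add] at h8
    rw [h8]
    congr 1
    ring
  have h9 : ∀ θ : ℝ, c + (s : ℂ) * Complex.exp ((θ : ℂ) * Complex.I) = circleMap c s θ :=
    fun θ => rfl
  simp only [h9]
  rw [h7, intervalIntegral.integral_of_le (by linarith [Real.pi_pos]),
    integral_Ioc_eq_integral_Ioo] at h4
  refine (ENNReal.ofReal_le_ofReal h4).trans_eq ?_
  refine ofReal_integral_eq_lintegral_ofReal ?_ ?_
  · have hc2 : Continuous (fun θ : ℝ => ‖g (circleMap c s θ)‖ ^ 2) := (hcont.norm).pow 2
    exact (hc2.integrableOn_Icc (a := -Real.pi) (b := Real.pi)).mono_set Ioo_subset_Icc_self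
  · exact Filter.Eventually.of_forall fun θ => by positivity

/-- mean value inequality on a disc -/
theorem disc (g : ℂ → ℂ) (c : ℂ) (ρ : ℝ) (hρ0 : 0 < ρ) (hρ1 : ρ ≤ 1)
    (hg : DifferentiableOn ℂ g (ball c 1)) :
    ENNReal.ofReal (Real.pi * ρ ^ 2 * ‖g c‖ ^ 2) ≤
      ∫⁻ w in ball c ρ, ENNReal.ofReal (‖g w‖ ^ 2) := by
  have hgρ : DifferentiableOn ℂ g (ball c ρ) := hg.mono (ball_subset_ball hρ1)
  have hmeas : Measurable ((ball c ρ).indicator (fun w => ENNReal.ofReal (‖g w‖ ^ 2))) := by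
    have h0 : (ball c ρ).indicator (fun w => ENNReal.ofReal (‖g w‖ ^ 2))
        = fun w => ENNReal.ofReal (‖(ball c ρ).indicator g w‖ ^ 2) := by
      funext w
      by_cases hw : w ∈ ball c ρ
      · rw [indicator_of_mem hw, indicator_of_mem hw]
      · rw [indicator_of_notMem hw, indicator_of_notMem hw]
        simp
    rw [h0]
    have h1 : Measurable ((ball c ρ).indicator g) := by
      classical
      have h2 : ContinuousOn g (ball c ρ) := hgρ.continuousOn
      have h := h2.measurable_piecewise (g := fun _ => (0 : ℂ)) continuousOn_const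
        isOpen_ball.measurableSet
      have h3 : (ball c ρ).piecewise g (fun _ => (0 : ℂ)) = (ball c ρ).indicator g := by
        funext w
        by_cases hw : w ∈ ball c ρ
        · rw [indicator_of_mem hw, piecewise_eq_of_mem _ _ _ hw]
        · rw [indicator_of_notMem hw, piecewise_eq_of_notMem _ _ _ hw]
      rw [h3] at h
      exact h
    exact ENNReal.measurable_ofReal.comp ((h1.norm).pow_const 2)
  rw [← lintegral_indicator isOpen_ball.measurableSet]
  rw [← lintegral_add_left_eq_self _ c]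
  have hp := polar (fun x => (ball c ρ).indicator (fun w => ENNReal.ofReal (‖g w‖ ^ 2)) (c + x))
    (hmeas.comp (measurable_const_add c))
  rw [hp]
  calc ENNReal.ofReal (Real.pi * ρ ^ 2 * ‖g c‖ ^ 2)
      = ∫⁻ s in Ioo (0 : ℝ) ρ, ENNReal.ofReal s * ENNReal.ofReal (2 * Real.pi * ‖g c‖ ^ 2) := by
        rw [lintegral_mul_const' _ _ ENNReal.ofReal_ne_top]
        have h1 : ∫⁻ s in Ioo (0 : ℝ) ρ, ENNReal.ofReal s = ENNReal.ofReal (ρ ^ 2 / 2) := by
          rw [← ofReal_integral_eq_lintegral_ofReal]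
          · rw [← integral_Ioc_eq_integral_Ioo, ← intervalIntegral.integral_of_le hρ0.le,
              integral_id]
            congr 1
            ring
          · exact (continuous_id.integrableOn_Icc (a := (0 : ℝ)) (b := ρ)).mono_set
              Ioo_subset_Icc_self
          · exact (ae_restrict_mem measurableSet_Ioo).mono fun s hs => hs.1.le
        rw [h1, ← ENNReal.ofReal_mul (by positivity)]
        congr 1
        ring
    _ ≤ ∫⁻ s in Ioo (0 : ℝ) ρ, ∫⁻ θ in Ioo (-Real.pi) Real.pi,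
      ENNReal.ofReal s * (ball c ρ).indicator (fun w => ENNReal.ofReal (‖g w‖ ^ 2))
        (c + (s : ℂ) * Complex.exp ((θ : ℂ) * Complex.I)) := by
        refine setLIntegral_mono' measurableSet_Ioo fun s hs => ?_
        have h1 := circle g c s hs.1 (lt_of_lt_of_le hs.2 hρ1) hg
        have h2 : ∀ θ : ℝ, (ball c ρ).indicator (fun w => ENNReal.ofReal (‖g w‖ ^ 2))
            (c + (s : ℂ) * Complex.exp ((θ : ℂ) * Complex.I))
            = ENNReal.ofReal (‖g (c + (s : ℂ) * Complex.exp ((θ : ℂ) * Complex.I))‖ ^ 2) := by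
          intro θ
          refine indicator_of_mem ?_ _
          exact closedBall_subset_ball hs.2 (circleMap_mem_closedBall c hs.1.le θ)
        simp only [h2]
        rw [lintegral_const_mul' _ _ ENNReal.ofReal_ne_top]
        gcongr
    _ ≤ _ := by
        refine lintegral_mono_set ?_
        exact Ioo_subset_Ioi_self

/-- MVP of squad EDX -/
theorem mvp (G : ℂ → ℂ) (hG : DifferentiableOn ℂ G (ball 4 1)) :
    ENNReal.ofReal (‖G 4‖ ^ 2 * (Real.pi / 4)) ≤
      ∫⁻ w in ball (4 : ℂ) (1 / 2), ENNReal.ofReal (‖G w‖ ^ 2) := by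
  have h1 := disc G 4 (1 / 2) (by norm_num) (by norm_num) hG
  refine le_trans (le_of_eq ?_) h1
  congr 1
  ring

end Pool.Agent.Helper91_EDX.AREA
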