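import Pool.Agent.EDX.Stmts1

namespace Pool.Agent.Helper91_EDX.DWN

open Polynomial Module Pool.Agent.EDX

theorem result (hG : GcdStmt) : DwnStmt := by
  classical
  intro k₀ K A _ _ _ _ _ _ m Φ Ψ c c' r hΨ hΦ hc hr
  set G : K[X] := EuclideanDomain.gcd Φ Ψ with hGdef
  obtain ⟨Φ1, hΦ1⟩ : G ∣ Φ := EuclideanDomain.gcd_dvd_left Φ Ψ
  obtain ⟨Ψ1, hΨ1⟩ : G ∣ Ψ := EuclideanDomain.gcd_dvd_right Φ Ψ
  have hbez : G = EuclideanDomain.gcdA Φ Ψ * Φ + EuclideanDomain.gcdB Φ Ψ * Ψ := by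
    rw [hGdef, EuclideanDomain.gcd_eq_gcd_ab Φ Ψ]
    ring
  have hΦ0 : Φ ≠ 0 := hΦ.1
  have hΨ0 : Ψ ≠ 0 := hΨ.1
  have hG0 : G ≠ 0 := by
    intro h0
    rw [h0, zero_mul] at hΦ1
    exact hΦ0 hΦ1
  have hΦ10 : Φ1 ≠ 0 := by
    intro h0
    rw [h0, mul_zero] at hΦ1
    exact hΦ0 hΦ1
  have h1 : LL m Φ (2 * r) ⊓ LL m Ψ r ≤ LL m G (2 * r) :=
    hG k₀ K A m Φ Ψ G (EuclideanDomain.gcdA Φ Ψ) (EuclideanDomain.gcdB Φ Ψ) (2 * r) r hΦ0 hΨ0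
      ⟨Φ1, hΦ1⟩ ⟨Ψ1, hΨ1⟩ hbez (by omega) (by omega)
  have h2 : LL m Φ (2 * r) ⊔ LL m Ψ r ≤ LL m (Φ1 * Ψ) r := by
    refine sup_le ?_ ?_
    · refine (LL_mono_r m Φ (by omega : r ≤ 2 * r)).trans (LL_mono_dvd m ?_ r)
      refine ⟨Ψ1, ?_⟩
      calc Φ1 * Ψ = Φ1 * (G * Ψ1) := by rw [← hΨ1]
        _ = (G * Φ1) * Ψ1 := by ring
        _ = Φ * Ψ1 := by rw [← hΦ1]
    · exact LL_mono_dvd m (Dvd.intro_left Φ1 rfl) r
  have h3 := Submodule.finrank_sup_add_finrank_inf_eq (LL m Φ (2 * r)) (LL m Ψ r)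
  have h4 := Submodule.finrank_mono h1
  have h5 := Submodule.finrank_mono h2
  have h6 := hΨ.2 (Φ1 * Ψ) (mul_ne_zero hΦ10 hΨ0)
  have h7 := hΦ.2 G hG0
  have h8 : (Φ1 * Ψ).natDegree = Φ1.natDegree + Ψ.natDegree := natDegree_mul hΦ10 hΨ0
  have h9 : Φ.natDegree = G.natDegree + Φ1.natDegree := by
    conv_lhs => rw [hΦ1]
    exact natDegree_mul hG0 hΦ10
  rw [h8] at h6
  rw [h9] at h7
  push_cast at h6 h7
  have h10 : ((finrank k₀ (LL m Φ (2 * r)) : ℝ) + finrank k₀ (LL m Ψ r))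
      ≤ (finrank k₀ (LL m (Φ1 * Ψ) r) : ℝ) + finrank k₀ (LL m G (2 * r)) := by
    have : finrank k₀ (LL m Φ (2 * r)) + finrank k₀ (LL m Ψ r)
      ≤ finrank k₀ (LL m (Φ1 * Ψ) r) + finrank k₀ (LL m G (2 * r)) := by omega
    exact_mod_cast this
  have h11 : (c' - c) * (Φ1.natDegree : ℝ) ≤ 0 := by nlinarith
  have h12 : (Φ1.natDegree : ℝ) ≤ 0 := by
    by_contra hcon
    push Not at hcon
    have : 0 < (c' - c) * (Φ1.natDegree : ℝ) := mul_pos (sub_pos.2 hc) hcon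
    linarith
  have h13 : Φ1.natDegree = 0 := by
    have : Φ1.natDegree ≤ 0 := by exact_mod_cast h12
    omega
  have h14 : IsUnit Φ1 := by
    rw [Polynomial.isUnit_iff_degree_eq_zero, degree_eq_natDegree hΦ10, h13]
    rfl
  have h15 : Φ ∣ G := by
    obtain ⟨u, hu⟩ := h14
    refine ⟨↑(u⁻¹), ?_⟩
    conv_rhs => rw [hΦ1, ← hu]
    rw [mul_assoc, Units.mul_inv, mul_one]
  exact h15.trans ⟨Ψ1, hΨ1⟩

end Pool.Agent.Helper91_EDX.DWN
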