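import Pool.Agent.EDX.Stmts3

namespace Pool.Agent.Helper91_EDX.FAM

open Pool.Agent.EDX Finset

theorem result (h1 : CptStmt) (h2 : SvdStmt) : FamStmt := by
  intro q
  obtain ⟨M, T, hT, hb⟩ := h1 q
  choose T' hT'0 hT'1 hT'2 using fun a => h2 (2 ^ q) (T a) (hT a).1
  refine ⟨M, T', ?_, ?_⟩
  · intro a
    refine ⟨hT'0 a, (hT'1 a).trans ?_⟩
    have h3 : 0 ≤ ‖(T a).det‖ := norm_nonneg _
    nlinarith [(hT a).2]
  · intro b hbP
    obtain ⟨a, ha⟩ := hb b hbP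
    refine ⟨a, fun y hy => ?_⟩
    rw [hT'2 a]
    exact ha y hy

end Pool.Agent.Helper91_EDX.FAM
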